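import Pool.Agent.H329R3.NU.Stmts
import Pool.Agent.H595R3.PM_KInt

/-! # Task TaskThCont of the project H329-NU (MP_948e80_an) -/

set_option autoImplicit false

open MeasureTheory Set Filter Topology

namespace Pool.Agent.H700R3.NU

open Pool.Agent.H329R3.PM Pool.Agent.H329R3.NU Pool.Agent.H595R3.PMKInt

/-- the density minus one -/
noncomputable def gg (h : ℝ × ℝ → ℝ) (z : ℝ × ℝ) : ℝ := dy h z / z.1 ^ 2

theorem dy_zero {h : ℝ × ℝ → ℝ} {z : ℝ × ℝ} (hz : z ∉ tsupport h) : dy h z = 0 := by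
  unfold dy
  have h1 : h =ᶠ[𝓝 z] fun _ => 0 := notMem_tsupport_iff_eventuallyEq.1 hz
  rw [h1.fderiv_eq]
  simp

theorem gg_cont {h : ℝ × ℝ → ℝ} (hs : ContDiff ℝ 2 h) (hsub : tsupport h ⊆ Om) :
    Continuous (gg h) := by
  have hd : Continuous (dy h) := by
    unfold dy
    exact (hs.continuous_fderiv (by norm_num)).clm_apply continuous_const
  rw [continuous_iff_continuousAt]
  intro z
  by_cases hz : z ∈ tsupport h
  · have h1 : z.1 ^ 2 ≠ 0 := pow_ne_zero 2 (hsub hz).1.1.ne'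
    exact hd.continuousAt.div (continuous_fst.pow 2).continuousAt h1
  · have h2 : ∀ᶠ w in 𝓝 z, w ∈ (tsupport h)ᶜ :=
      (isClosed_tsupport h).isOpen_compl.mem_nhds hz
    have h3 : gg h =ᶠ[𝓝 z] fun _ => 0 := by
      filter_upwards [h2] with w hw
      unfold gg
      rw [dy_zero hw, zero_div]
    exact continuousAt_const.congr h3.symm

theorem W_cont {h : ℝ × ℝ → ℝ} (hs : ContDiff ℝ 2 h) (hsub : tsupport h ⊆ Om) :
    Continuous (W h) := continuous_const.add (gg_cont hs hsub)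

theorem W_bdd {h : ℝ × ℝ → ℝ} (hs : ContDiff ℝ 2 h) (hc : HasCompactSupport h)
    (hsub : tsupport h ⊆ Om) : ∃ B : ℝ, 0 ≤ B ∧ ∀ z, |W h z| ≤ B := by
  have h1 : HasCompactSupport (gg h) := by
    refine HasCompactSupport.intro hc fun z hz => ?_
    unfold gg
    rw [dy_zero hz, zero_div]
  obtain ⟨C, hC⟩ := h1.exists_bound_of_continuous (gg_cont hs hsub)
  have hC0 : 0 ≤ C := (norm_nonneg _).trans (hC 0)
  refine ⟨1 + C, by linarith, fun z => ?_⟩
  calc |W h z| = |1 + gg h z| := rfl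
    _ ≤ |(1 : ℝ)| + |gg h z| := abs_add_le _ _
    _ ≤ 1 + C := by
      rw [abs_one]
      exact add_le_add_right (hC z) 1

/-- continuous part of the kernel -/
noncomputable def k1 (r y : ℝ) : ℝ := y * (√(r + y) - √|r - y| - r / 2 * (1 / √(r + y))) / r ^ 3

theorem kk_eq {r : ℝ} (hr : 0 < r) (y : ℝ) :
    kk r y = k1 r y + (1 / (2 * r ^ 2)) * (y * sg (r - y)) := by
  unfold kk kap k1
  field_simp
  ring

theorem F1_cont {g : ℝ × ℝ → ℝ} (hg : Continuous g) {z₀ : ℝ × ℝ} (hz : 0 < z₀.1) :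
    ContinuousAt (fun z : ℝ × ℝ => ∫ y in Ioc (0 : ℝ) 1, k1 z.1 y * g (y, z.2)) z₀ := by
  have hc : Continuous (Function.uncurry fun (z : ℝ × ℝ) (y : ℝ) =>
      k1 (max z.1 (z₀.1 / 2)) (max y 0) * g (y, z.2)) := by
    have hm : Continuous fun p : (ℝ × ℝ) × ℝ => max p.1.1 (z₀.1 / 2) := by fun_prop
    have hy : Continuous fun p : (ℝ × ℝ) × ℝ => max p.2 (0 : ℝ) := by fun_prop
    have hpos : ∀ p : (ℝ × ℝ) × ℝ, 0 < max p.1.1 (z₀.1 / 2) := fun p =>
      lt_of_lt_of_le (by linarith) (le_max_right _ _)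
    have hpos2 : ∀ p : (ℝ × ℝ) × ℝ, 0 < max p.1.1 (z₀.1 / 2) + max p.2 (0 : ℝ) := fun p =>
      add_pos_of_pos_of_nonneg (hpos p) (le_max_right _ _)
    have h1 : Continuous fun p : (ℝ × ℝ) × ℝ =>
        √(max p.1.1 (z₀.1 / 2) + max p.2 (0 : ℝ)) := (hm.add hy).sqrt
    have h2 : Continuous fun p : (ℝ × ℝ) × ℝ =>
        √|max p.1.1 (z₀.1 / 2) - max p.2 (0 : ℝ)| := (hm.sub hy).abs.sqrt
    have h3 : Continuous fun p : (ℝ × ℝ) × ℝ =>
        1 / √(max p.1.1 (z₀.1 / 2) + max p.2 (0 : ℝ)) :=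
      continuous_const.div h1 fun p => (Real.sqrt_pos.2 (hpos2 p)).ne'
    have h4 : Continuous fun p : (ℝ × ℝ) × ℝ =>
        k1 (max p.1.1 (z₀.1 / 2)) (max p.2 (0 : ℝ)) :=
      (hy.mul ((h1.sub h2).sub ((hm.div_const 2).mul h3))).div (hm.pow 3)
        fun p => pow_ne_zero 3 (hpos p).ne'
    exact h4.mul (hg.comp (continuous_snd.prodMk (continuous_snd.comp continuous_fst)))
  have hI := intervalIntegral.continuous_parametric_intervalIntegral_of_continuous'
    (μ := volume) hc 0 1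
  refine (hI.continuousAt (x := z₀)).congr ?_
  have hev : ∀ᶠ z : ℝ × ℝ in 𝓝 z₀, z₀.1 / 2 < z.1 :=
    (continuous_fst.continuousAt (x := z₀)).eventually (lt_mem_nhds (by linarith))
  filter_upwards [hev] with z hz1
  rw [intervalIntegral.integral_of_le zero_le_one]
  refine setIntegral_congr_fun measurableSet_Ioc fun y hy => ?_
  rw [max_eq_left hz1.le, max_eq_left hy.1.le]

/-- the weight in the singular part -/
noncomputable def Ph (g : ℝ × ℝ → ℝ) (t y : ℝ) : ℝ :=
  (Ioc (0 : ℝ) 1).indicator (fun y => y * g (y, t)) y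

theorem F2_eq (g : ℝ × ℝ → ℝ) (r t : ℝ) :
    ∫ y in Ioc (0 : ℝ) 1, y * g (y, t) * sg (r - y) = ∫ s : ℝ, Ph g t (r - s) * sg s := by
  rw [← integral_indicator measurableSet_Ioc]
  have h1 : (fun y => (Ioc (0 : ℝ) 1).indicator (fun y => y * g (y, t) * sg (r - y)) y) =
      fun y => Ph g t y * sg (r - y) := by
    funext y
    unfold Ph
    by_cases hy : y ∈ Ioc (0 : ℝ) 1
    · rw [indicator_of_mem hy, indicator_of_mem hy]
    · rw [indicator_of_notMem hy, indicator_of_notMem hy, zero_mul]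
  rw [h1, ← integral_sub_left_eq_self (fun y => Ph g t y * sg (r - y)) volume r]
  refine integral_congr_ae (Eventually.of_forall fun s => ?_)
  simp only [sub_sub_cancel]

theorem F2_cont {g : ℝ × ℝ → ℝ} (hg : Continuous g) {B : ℝ} (hB0 : 0 ≤ B) (hB : ∀ z, |g z| ≤ B)
    {z₀ : ℝ × ℝ} (hz : z₀.1 ∈ Ioo (0 : ℝ) 1) :
    ContinuousAt (fun z : ℝ × ℝ => ∫ s : ℝ, Ph g z.2 (z.1 - s) * sg s) z₀ := by
  have hyg : Continuous (fun p : ℝ × ℝ => p.1 * g p) := continuous_fst.mul hg
  have hmeas : ∀ t : ℝ, Measurable (Ph g t) := by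
    intro t
    have h1 : Measurable (fun y : ℝ => y * g (y, t)) :=
      (continuous_id.mul (hg.comp (continuous_id.prodMk continuous_const))).measurable
    exact h1.indicator measurableSet_Ioc
  have hint : Integrable ((Ioc (-1 : ℝ) 1).indicator fun s : ℝ => B * |s| ^ (-(1 / 2) : ℝ)) := by
    rw [integrable_indicator_iff measurableSet_Ioc]
    have h1 := (intervalIntegrable_iff_integrableOn_Ioc_of_le (by norm_num)).1 (ii (-1) 1)
    exact h1.const_mul B
  refine continuousAt_of_dominated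
    (bound := (Ioc (-1 : ℝ) 1).indicator fun s : ℝ => B * |s| ^ (-(1 / 2) : ℝ)) ?_ ?_ hint ?_
  · refine Eventually.of_forall fun z => ?_
    exact (((hmeas z.2).comp (measurable_const.sub measurable_id)).mul
      measurable_sg).aestronglyMeasurable
  · have hev : ∀ᶠ z : ℝ × ℝ in 𝓝 z₀, z.1 ∈ Ioo (0 : ℝ) 1 :=
      (continuous_fst.continuousAt (x := z₀)).eventually (isOpen_Ioo.mem_nhds hz)
    filter_upwards [hev] with z hz1
    refine Eventually.of_forall fun s => ?_
    rw [Real.norm_eq_abs, abs_mul]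
    by_cases hs : z.1 - s ∈ Ioc (0 : ℝ) 1
    · have hs2 : s ∈ Ioc (-1 : ℝ) 1 := ⟨by linarith [hs.2, hz1.1], by linarith [hs.1, hz1.2]⟩
      rw [indicator_of_mem hs2]
      unfold Ph
      rw [indicator_of_mem hs, abs_mul]
      have h1 : |z.1 - s| ≤ 1 := by
        rw [abs_of_pos hs.1]
        exact hs.2
      have h2 : |z.1 - s| * |g (z.1 - s, z.2)| ≤ 1 * B :=
        mul_le_mul h1 (hB _) (abs_nonneg _) zero_le_one
      rw [one_mul] at h2
      exact mul_le_mul h2 (abs_sg_le s) (abs_nonneg _) hB0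
    · have h0 : Ph g z.2 (z.1 - s) = 0 := indicator_of_notMem hs _
      rw [h0, abs_zero, zero_mul]
      exact indicator_nonneg (fun s _ => mul_nonneg hB0 (Real.rpow_nonneg (abs_nonneg _) _)) s
  · have h1 : ∀ᵐ s : ℝ, s ≠ z₀.1 := by
      rw [ae_iff]
      simp
    have h2 : ∀ᵐ s : ℝ, s ≠ z₀.1 - 1 := by
      rw [ae_iff]
      simp
    filter_upwards [h1, h2] with s hs1 hs2
    refine ContinuousAt.mul ?_ continuousAt_const
    have hcs : ContinuousAt (fun z : ℝ × ℝ => z.1 - s) z₀ :=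
      (continuous_fst.sub continuous_const).continuousAt
    by_cases hs : z₀.1 - s ∈ Ioo (0 : ℝ) 1
    · have hev : ∀ᶠ z : ℝ × ℝ in 𝓝 z₀, z.1 - s ∈ Ioo (0 : ℝ) 1 :=
        hcs.eventually (isOpen_Ioo.mem_nhds hs)
      have hc : ContinuousAt (fun z : ℝ × ℝ => (z.1 - s) * g (z.1 - s, z.2)) z₀ :=
        (hyg.comp ((continuous_fst.sub continuous_const).prodMk continuous_snd)).continuousAt
      refine hc.congr ?_
      filter_upwards [hev] with z hz1
      unfold Ph
      rw [indicator_of_mem (Ioo_subset_Ioc_self hz1)]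
    · have hs' : z₀.1 - s ∈ (Icc (0 : ℝ) 1)ᶜ := by
        intro hmem
        refine hs ⟨lt_of_le_of_ne hmem.1 fun e => hs1 (by linarith),
          lt_of_le_of_ne hmem.2 fun e => hs2 (by linarith)⟩
      have hev : ∀ᶠ z : ℝ × ℝ in 𝓝 z₀, z.1 - s ∈ (Icc (0 : ℝ) 1)ᶜ :=
        hcs.eventually (isClosed_Icc.isOpen_compl.mem_nhds hs')
      refine (continuousAt_const (y := (0 : ℝ))).congr ?_
      filter_upwards [hev] with z hz1
      exact (indicator_of_notMem (fun hm => hz1 (Ioc_subset_Icc_self hm)) _).symm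

theorem taskThCont : TaskThCont := by
  intro A κ h hs hc hsub
  have hg : Continuous (W h) := W_cont hs hsub
  obtain ⟨B, hB0, hB⟩ := W_bdd hs hc hsub
  intro z₀ hz₀
  refine ContinuousAt.continuousWithinAt ?_
  have hr0 : 0 < z₀.1 := hz₀.1.1
  have h1 := F1_cont hg hr0
  have h2 := F2_cont hg hB0 hB hz₀.1
  have h3 : ContinuousAt (fun z : ℝ × ℝ => 1 / (2 * z.1 ^ 2)) z₀ :=
    continuousAt_const.div (continuousAt_const.mul (continuous_fst.pow 2).continuousAt)
      (by positivity)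
  have h4 : ContinuousAt (fun z : ℝ × ℝ => A * (Real.exp (-2 * κ * z.2) / 2)) z₀ := by
    fun_prop
  have h5 := h4.mul (h1.add (h3.mul h2))
  refine h5.congr ?_
  have hev : ∀ᶠ z : ℝ × ℝ in 𝓝 z₀, 0 < z.1 :=
    (continuous_fst.continuousAt (x := z₀)).eventually (lt_mem_nhds hr0)
  filter_upwards [hev] with z hz1
  unfold Th Sth Sop
  have hI1 : IntegrableOn (fun y => k1 z.1 y * W h (y, z.2)) (Ioc (0 : ℝ) 1) := by
    have hcont : ContinuousOn (fun y : ℝ => k1 z.1 y * W h (y, z.2)) (Icc (0 : ℝ) 1) := by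
      have e1 : ∀ y ∈ Icc (0 : ℝ) 1, √(z.1 + y) ≠ 0 := by
        intro y hy
        exact (Real.sqrt_pos.2 (by linarith [hy.1])).ne'
      have e2 : ContinuousOn (fun y : ℝ => √(z.1 + y)) (Icc (0 : ℝ) 1) := by fun_prop
      have e3 : ContinuousOn (fun y : ℝ => √|z.1 - y|) (Icc (0 : ℝ) 1) := by fun_prop
      have e4 : ContinuousOn (fun y : ℝ => k1 z.1 y) (Icc (0 : ℝ) 1) :=
        (continuousOn_id.mul ((e2.sub e3).sub (continuousOn_const.mul
          (continuousOn_const.div e2 e1)))).div_const _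
      exact e4.mul (hg.comp (continuous_id.prodMk continuous_const)).continuousOn
    exact (hcont.integrableOn_compact isCompact_Icc).mono_set Ioc_subset_Icc_self
  have hI2 : IntegrableOn (fun y => y * W h (y, z.2) * sg (z.1 - y)) (Ioc (0 : ℝ) 1) := by
    refine Integrable.mono ((int_sg z.1).const_mul B) ?_ ?_
    · have e1 : Measurable (fun y : ℝ => y * W h (y, z.2)) :=
        (continuous_id.mul (hg.comp (continuous_id.prodMk continuous_const))).measurable
      exact (e1.mul (measurable_sg.comp (measurable_const.sub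
        measurable_id))).aestronglyMeasurable
    · rw [ae_restrict_iff' measurableSet_Ioc]
      filter_upwards with y hy
      rw [norm_mul, norm_mul, norm_mul]
      have e1 : ‖y‖ ≤ 1 := by
        rw [Real.norm_eq_abs, abs_of_pos hy.1]
        exact hy.2
      have e2 : ‖y‖ * ‖W h (y, z.2)‖ ≤ 1 * ‖B‖ := by
        refine mul_le_mul e1 ?_ (norm_nonneg _) zero_le_one
        rw [Real.norm_eq_abs, Real.norm_eq_abs]
        exact (hB _).trans (le_abs_self B)
      rw [one_mul] at e2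
      exact mul_le_mul_of_nonneg_right e2 (norm_nonneg _)
  have e5 : (fun y => kk z.1 y * W h (y, z.2)) = fun y => k1 z.1 y * W h (y, z.2) +
      (1 / (2 * z.1 ^ 2)) * (y * W h (y, z.2) * sg (z.1 - y)) := by
    funext y
    rw [kk_eq hz1]
    ring
  change A * (Real.exp (-2 * κ * z.2) / 2) * ((∫ y in Ioc (0 : ℝ) 1, k1 z.1 y * W h (y, z.2)) +
    1 / (2 * z.1 ^ 2) * (∫ s : ℝ, Ph (W h) z.2 (z.1 - s) * sg s)) =
    A * (Real.exp (-2 * κ * z.2) / 2) * ∫ y in Ioc (0 : ℝ) 1, kk z.1 y * W h (y, z.2)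
  rw [← F2_eq, e5, integral_add hI1 (hI2.const_mul _), integral_const_mul]

end Pool.Agent.H700R3.NU
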